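import Pool.Agent.Helper20.Turn.Core

/-!
# Oriented paths with many turning points: the theorem for patterns
-/

set_option autoImplicit false

namespace Pool.Agent.Helper20.Turn

open Finset Classical

/-- the turning points of kind `e` at positions below `n` -/
def Src (P : ℕ → Bool) (e : Bool) (n : ℕ) : Finset ℕ :=
  (range n).filter (fun j => 1 ≤ j ∧ P (j - 1) = !e ∧ P j = e)

/-- the number of turning points at positions below `n` -/
def T (P : ℕ → Bool) (n : ℕ) : ℕ := ((range n).filter (fun j => 1 ≤ j ∧ P (j - 1) ≠ P j)).card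

theorem T_le (P : ℕ → Bool) (l k : ℕ) (h : l ≤ k) : T P k ≤ T P l + (k - l) := by
  have hs : (range k).filter (fun j => 1 ≤ j ∧ P (j - 1) ≠ P j)
      ⊆ (range l).filter (fun j => 1 ≤ j ∧ P (j - 1) ≠ P j) ∪ Finset.Ico l k := by
    intro j hj
    rw [Finset.mem_filter, Finset.mem_range] at hj
    rw [Finset.mem_union, Finset.mem_filter, Finset.mem_range, Finset.mem_Ico]
    by_cases h1 : j < l
    · exact Or.inl ⟨h1, hj.2⟩
    · exact Or.inr ⟨by omega, hj.1⟩
  have h1 := (Finset.card_le_card hs).trans (Finset.card_union_le _ _)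
  rw [Nat.card_Ico] at h1
  exact h1

theorem T_lt (P : ℕ → Bool) (k : ℕ) (hk : 1 ≤ k) : T P k + 1 ≤ k := by
  have hs : (range k).filter (fun j => 1 ≤ j ∧ P (j - 1) ≠ P j) ⊆ Finset.Ico 1 k := by
    intro j hj
    rw [Finset.mem_filter, Finset.mem_range] at hj
    rw [Finset.mem_Ico]
    exact ⟨hj.2.1, hj.1⟩
  have h1 := Finset.card_le_card hs
  rw [Nat.card_Ico] at h1
  unfold T
  omega

theorem Src_succ (P : ℕ → Bool) (e : Bool) (n : ℕ) :
    (Src P e (n + 1)).card = (Src P e n).card + if 1 ≤ n ∧ P (n - 1) = !e ∧ P n = e then 1 else 0 := by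
  unfold Src
  rw [Finset.range_add_one, Finset.filter_insert]
  split_ifs with h
  · rw [Finset.card_insert_of_notMem]
    simp
  · rfl

theorem T_succ (P : ℕ → Bool) (n : ℕ) :
    T P (n + 1) = T P n + if 1 ≤ n ∧ P (n - 1) ≠ P n then 1 else 0 := by
  unfold T
  rw [Finset.range_add_one, Finset.filter_insert]
  split_ifs with h
  · rw [Finset.card_insert_of_notMem]
    simp
  · rfl

theorem alt (P : ℕ → Bool) (n : ℕ) :
    T P (n + 1) = (Src P true (n + 1)).card + (Src P false (n + 1)).card ∧
    (Src P true (n + 1)).card + (if P 0 = true then 1 else 0)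
      = (Src P false (n + 1)).card + (if P n = true then 1 else 0) := by
  induction n with
  | zero => simp [T, Src, Finset.filter_singleton]
  | succ n ih =>
    rw [T_succ P (n + 1), Src_succ P true (n + 1), Src_succ P false (n + 1)]
    simp only [Nat.add_sub_cancel]
    obtain ⟨ih1, ih2⟩ := ih
    rcases h1 : P n with _ | _ <;> rcases h2 : P (n + 1) with _ | _ <;>
      simp only [h1, h2] at ih1 ih2 ⊢ <;> simp at ih1 ih2 ⊢ <;> omega

theorem T_Src (P : ℕ → Bool) (e : Bool) (n : ℕ) : T P n ≤ 2 * (Src P e n).card + 1 := by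
  rcases n with _ | n
  · simp [T]
  · obtain ⟨h1, h2⟩ := alt P n
    cases e
    · split_ifs at h2 <;> omega
    · split_ifs at h2 <;> omega

section main

variable {V : Type} [Fintype V] {R : Bool → V → V → Prop} {P : ℕ → Bool}

theorem ext_emb {l : ℕ} {f : ℕ → V} {z : V} (hf : Emb R P l f) (hz : z ∉ im l f)
    (ha : R (P l) (f l) z) :
    Emb R P (l + 1) (Function.update f (l + 1) z) ∧
      im (l + 1) (Function.update f (l + 1) z) = insert z (im l f) := by
  have hu : ∀ i ≤ l, Function.update f (l + 1) z i = f i := fun i hi =>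
    Function.update_of_ne (by omega) _ _
  have hu' : Function.update f (l + 1) z (l + 1) = z := Function.update_self _ _ _
  refine ⟨⟨?_, ?_⟩, ?_⟩
  · intro i hi j hj hij
    rcases Nat.lt_or_ge i (l + 1) with h1 | h1 <;> rcases Nat.lt_or_ge j (l + 1) with h2 | h2
    · rw [hu i (by omega), hu j (by omega)] at hij
      exact hf.1 i (by omega) j (by omega) hij
    · have e : j = l + 1 := by omega
      subst e
      rw [hu i (by omega), hu'] at hij
      exact absurd (mem_im.2 ⟨i, by omega, hij⟩) hz
    · have e : i = l + 1 := by omega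
      subst e
      rw [hu j (by omega), hu'] at hij
      exact absurd (mem_im.2 ⟨j, by omega, hij.symm⟩) hz
    · omega
  · intro i hi
    rcases eq_or_ne i l with h | h
    · subst h
      rw [hu i le_rfl, hu']
      exact ha
    · rw [hu i (by omega), hu (i + 1) (by omega)]
      exact hf.2 i (by omega)
  · ext x
    rw [Finset.mem_insert, mem_im, mem_im]
    constructor
    · rintro ⟨i, hi, rfl⟩
      rcases Nat.lt_or_ge i (l + 1) with h1 | h1
      · right
        exact ⟨i, by omega, (hu i (by omega)).symm⟩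
      · left
        have e : i = l + 1 := by omega
        rw [e, hu']
    · rintro (rfl | ⟨i, hi, rfl⟩)
      · exact ⟨l + 1, le_rfl, hu'⟩
      · exact ⟨i, by omega, hu i hi⟩

theorem free_card {l : ℕ} {f : ℕ → V} {d : ℕ} (hR2 : ∀ b x y, R b x y → ¬ R b y x)
    (hd : ∀ b v, d ≤ (N R b v).card) (hf : Emb R P l f) :
    d ≤ (N R (P l) (f l) \ im l f).card + l := by
  have h1 := Finset.card_sdiff_add_card_inter (N R (P l) (f l)) (im l f)
  have h2 : (N R (P l) (f l) ∩ im l f).card ≤ l := by
    have hs : N R (P l) (f l) ∩ im l f ⊆ (im l f).erase (f l) := by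
      intro x hx
      rw [Finset.mem_inter, mem_N] at hx
      rw [Finset.mem_erase]
      refine ⟨fun h => ?_, hx.2⟩
      subst h
      exact hR2 _ _ _ hx.1 hx.1
    have h3 := Finset.card_le_card hs
    rw [Finset.card_erase_of_mem (mem_im.2 ⟨l, le_rfl, rfl⟩), card_im hf.1] at h3
    simpa using h3
  have h3 := hd (P l) (f l)
  omega

theorem greedy {d : ℕ} (hR2 : ∀ b x y, R b x y → ¬ R b y x)
    (hd : ∀ b v, d ≤ (N R b v).card) (hne : Nonempty V) : ∀ j ≤ d, ∃ f, Emb R P j f := by
  intro j
  induction j with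
  | zero =>
    intro _
    obtain ⟨v⟩ := hne
    exact ⟨fun _ => v, fun i hi j hj _ => by omega, fun i hi => absurd hi (by omega)⟩
  | succ j ih =>
    intro hj
    obtain ⟨f, hf⟩ := ih (by omega)
    have h1 := free_card hR2 hd hf
    have h2 : (N R (P j) (f j) \ im j f).Nonempty := by
      rw [← Finset.card_pos]; omega
    obtain ⟨z, hz⟩ := h2
    rw [Finset.mem_sdiff, mem_N] at hz
    exact ⟨_, (ext_emb hf hz.2 hz.1).1⟩

/-- an end whose embedding has at most one free continuation misses few vertices -/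
theorem end_miss {l d : ℕ} {f : ℕ → V} (hd : ∀ b v, d ≤ (N R b v).card) (hf : Emb R P l f)
    (h : ¬ 2 ≤ (N R (P l) (f l) \ im l f).card) :
    (im l f \ N R (P l) (f l)).card + d ≤ l + 2 := by
  have h1 := miss (hd (P l) (f l)) (A := im l f) (by omega)
  rw [card_im hf.1] at h1
  exact h1

/-- the positions missed by a free continuation -/
theorem pos_miss {l d : ℕ} {f : ℕ → V} {z : V} (hR2 : ∀ b x y, R b x y → ¬ R b y x)
    (hd : ∀ b v, d ≤ (N R b v).card) (hf : Emb R P l f) (hz : z ∉ im l f)
    (ha : R (P l) (f l) z)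
    (hQ : ∀ g, Emb R P (l + 1) g → ¬ 2 ≤ (N R (P (l + 1)) (g (l + 1)) \ im (l + 1) g).card) :
    ((range (l + 1)).filter (fun i => ¬ R (P (l + 1)) z (f i))).card + d ≤ l + 2 := by
  obtain ⟨h1, h2⟩ := ext_emb hf hz ha
  have h3 := end_miss hd h1 (hQ _ h1)
  rw [Function.update_self, h2] at h3
  have h4 : ((range (l + 1)).filter (fun i => ¬ R (P (l + 1)) z (f i))).card + 1
      ≤ (insert z (im l f) \ N R (P (l + 1)) z).card := by
    have hc : (((range (l + 1)).filter (fun i => ¬ R (P (l + 1)) z (f i))).image f).card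
        = ((range (l + 1)).filter (fun i => ¬ R (P (l + 1)) z (f i))).card := by
      apply Finset.card_image_of_injOn
      intro a ha b hb hab
      have ha' := (Finset.mem_filter.1 ha).1
      have hb' := (Finset.mem_filter.1 hb).1
      rw [Finset.mem_range] at ha' hb'
      exact hf.1 a (by omega) b (by omega) hab
    rw [← hc]
    have hzn : z ∉ ((range (l + 1)).filter (fun i => ¬ R (P (l + 1)) z (f i))).image f := by
      intro hm
      rw [Finset.mem_image] at hm
      obtain ⟨i, hi, hm⟩ := hm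
      have hi' := (Finset.mem_filter.1 hi).1
      rw [Finset.mem_range] at hi'
      exact hz (mem_im.2 ⟨i, by omega, hm⟩)
    rw [← Finset.card_insert_of_notMem hzn]
    apply Finset.card_le_card
    intro y hy
    rw [Finset.mem_insert] at hy
    rw [Finset.mem_sdiff, Finset.mem_insert, mem_N]
    rcases hy with rfl | hy
    · exact ⟨Or.inl rfl, fun h => hR2 _ _ _ h h⟩
    · rw [Finset.mem_image] at hy
      obtain ⟨i, hi, rfl⟩ := hy
      rw [Finset.mem_filter, Finset.mem_range] at hi
      exact ⟨Or.inr (mem_im.2 ⟨i, by omega, rfl⟩), hi.2⟩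
  omega

/-- **Main theorem for patterns.** -/
theorem main (hR1 : ∀ b x y, R b x y → R (!b) y x) (hR2 : ∀ b x y, R b x y → ¬ R b y x)
    (hne : Nonempty V) (d k : ℕ) (hd : ∀ b v, d ≤ (N R b v).card)
    (hT : 6 * k + 5 ≤ 6 * d + T P k) : ∃ f, Emb R P k f := by
  by_contra hno
  push Not at hno
  have hgr := greedy (P := P) hR2 hd hne
  have hdk : d < k := by
    by_contra h
    obtain ⟨f, hf⟩ := hgr k (by omega)
    exact hno f hf
  have hTk := T_lt P k (by omega)
  have hd2 : 2 ≤ d := by omega
  let Q : ℕ → Prop := fun j => ∃ f, Emb R P j f ∧ 2 ≤ (N R (P j) (f j) \ im j f).card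
  have hQ0 : Q (d - 2) := by
    obtain ⟨f, hf⟩ := hgr (d - 2) (by omega)
    have h1 := free_card hR2 hd hf
    exact ⟨f, hf, by omega⟩
  have hext : ∀ j, Q j → ∃ f, Emb R P (j + 1) f := by
    rintro j ⟨f, hf, h2⟩
    have h3 : (N R (P j) (f j) \ im j f).Nonempty := by
      rw [← Finset.card_pos]; omega
    obtain ⟨z, hz⟩ := h3
    rw [Finset.mem_sdiff, mem_N] at hz
    exact ⟨_, (ext_emb hf hz.2 hz.1).1⟩
  set l := Nat.findGreatest Q (k - 1) with hl
  have hQl : Q l := Nat.findGreatest_spec (P := Q) (m := d - 2) (by omega) hQ0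
  have hlk : l ≤ k - 1 := Nat.findGreatest_le _
  have hlk' : l ≠ k - 1 := by
    intro h
    obtain ⟨f, hf⟩ := hext l hQl
    have e : l + 1 = k := by omega
    rw [e] at hf
    exact hno f hf
  have hQn : ∀ j, l < j → j ≤ k - 1 → ¬ Q j := fun j h1 h2 =>
    Nat.findGreatest_is_greatest h1 h2
  have hlk2 : l + 2 ≤ k := by omega
  have hld : d ≤ l + 2 := by
    have := Nat.le_findGreatest (P := Q) (m := d - 2) (n := k - 1) (by omega) hQ0
    omega
  obtain ⟨f, hf, hfree⟩ := hQl
  have hfree' : 1 < (N R (P l) (f l) \ im l f).card := by omega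
  rw [Finset.one_lt_card] at hfree'
  obtain ⟨z, hz, z', hz', hzz⟩ := hfree'
  rw [Finset.mem_sdiff, mem_N] at hz hz'
  have hQ1 : ∀ g, Emb R P (l + 1) g → ¬ 2 ≤ (N R (P (l + 1)) (g (l + 1)) \ im (l + 1) g).card :=
    fun g hg h => hQn (l + 1) (by omega) (by omega) ⟨g, hg, h⟩
  have mz := pos_miss hR2 hd hf hz.2 hz.1 hQ1
  have mz' := pos_miss hR2 hd hf hz'.2 hz'.1 hQ1
  set b := P (l + 1) with hb
  set Kz := (range (l + 1)).filter (fun i => ¬ R b z (f i)) with hKz
  set Kz' := (range (l + 1)).filter (fun i => ¬ R b z' (f i)) with hKz'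
  have hTl := T_le P l k (by omega)
  -- a good turning point
  have good : ∃ i ∈ Src P b l, R b z' (f (i - 1)) ∧ R b z' (f (i + 1)) ∧ R b z (f i) := by
    by_contra hcon
    push Not at hcon
    have hs : Src P b l ⊆ (Kz'.image (fun i => i + 1) ∪ Kz'.image (fun i => i - 1)) ∪ Kz := by
      intro j hj
      have hj' := hj
      rw [Src, Finset.mem_filter, Finset.mem_range] at hj'
      rw [Finset.mem_union, Finset.mem_union, Finset.mem_image, Finset.mem_image]
      by_cases h1 : R b z' (f (j - 1))
      · by_cases h2 : R b z' (f (j + 1))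
        · right
          rw [hKz, Finset.mem_filter, Finset.mem_range]
          exact ⟨by omega, hcon j hj h1 h2⟩
        · left; right
          refine ⟨j + 1, ?_, by omega⟩
          rw [hKz', Finset.mem_filter, Finset.mem_range]
          exact ⟨by omega, h2⟩
      · left; left
        refine ⟨j - 1, ?_, by omega⟩
        rw [hKz', Finset.mem_filter, Finset.mem_range]
        exact ⟨by omega, h1⟩
    have h1 := (Finset.card_le_card hs).trans (Finset.card_union_le _ _)
    have h2 := Finset.card_union_le (Kz'.image (fun i => i + 1)) (Kz'.image (fun i => i - 1))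
    have h3 : (Kz'.image (fun i => i + 1)).card ≤ Kz'.card := Finset.card_image_le
    have h4 : (Kz'.image (fun i => i - 1)).card ≤ Kz'.card := Finset.card_image_le
    have h5 := T_Src P b l
    omega
  obtain ⟨i0, hi0, hv1, hv2, hv3⟩ := good
  rw [Src, Finset.mem_filter, Finset.mem_range] at hi0
  obtain ⟨hi0l, hi01, hi0P1, hi0P2⟩ := hi0
  -- the path with l + 2 arcs
  obtain ⟨hg1, hg1im⟩ := ext_emb hf hz.2 hz.1
  set g1 := Function.update f (l + 1) z with hg1d
  have hg1l : g1 (l + 1) = z := Function.update_self _ _ _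
  have hg1f : ∀ i ≤ l, g1 i = f i := fun i hi => Function.update_of_ne (by omega) _ _
  set g := Function.update g1 (l + 2) z' with hgd
  have hgl : g (l + 2) = z' := Function.update_self _ _ _
  have hgf : ∀ i ≤ l + 1, g i = g1 i := fun i hi => Function.update_of_ne (by omega) _ _
  have hz'im : z' ∉ im (l + 1) g1 := by
    rw [hg1im, Finset.mem_insert, not_or]
    exact ⟨fun h => hzz h.symm, hz'.2⟩
  have hginj : Inj (l + 2) g := by
    intro i hi j hj hij
    rcases Nat.lt_or_ge i (l + 2) with h1 | h1 <;> rcases Nat.lt_or_ge j (l + 2) with h2 | h2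
    · rw [hgf i (by omega), hgf j (by omega)] at hij
      exact hg1.1 i (by omega) j (by omega) hij
    · have e : j = l + 2 := by omega
      subst e
      rw [hgf i (by omega), hgl] at hij
      exact absurd (mem_im.2 ⟨i, by omega, hij⟩) hz'im
    · have e : i = l + 2 := by omega
      subst e
      rw [hgf j (by omega), hgl] at hij
      exact absurd (mem_im.2 ⟨j, by omega, hij.symm⟩) hz'im
    · omega
  have hgarc : ∀ i < l + 1, R (P i) (g i) (g (i + 1)) := by
    intro i hi
    rw [hgf i (by omega), hgf (i + 1) (by omega)]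
    exact hg1.2 i (by omega)
  have hg0 : ∀ i ≤ l, g i = f i := fun i hi => by rw [hgf i (by omega), hg1f i hi]
  have hh0 : Emb R P (l + 2) (fun i => g (Equiv.swap i0 (l + 2) i)) := by
    refine swap_emb hR1 hginj hgarc hi01 hi0l ?_ ?_ ?_ ?_
    · rw [hi0P1, hi0P2]
    · rw [hi0P2, hgl, hg0 _ (by omega)]; exact hv1
    · rw [hi0P2, hgl, hg0 _ (by omega)]; exact hv2
    · rw [hgf _ le_rfl, hg1l, hg0 _ (by omega)]; exact hv3
  rcases Nat.lt_or_ge (l + 2) k with hlt | hge
  swap
  · have e : l + 2 = k := by omega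
    rw [e] at hh0
    exact hno _ hh0
  -- apply the closure lemma
  set h0 : ℕ → V := fun i => g (Equiv.swap i0 (l + 2) i) with hh0d
  have hQ2 : ∀ h, Emb R P (l + 2) h → im (l + 2) h = im (l + 2) h0 →
      (im (l + 2) h0 \ N R (P (l + 2)) (h (l + 2))).card ≤ l + 4 - d := by
    intro h hh him
    have h1 := end_miss hd hh (fun h' => hQn (l + 2) (by omega) (by omega) ⟨h, hh, h'⟩)
    rw [him] at h1
    omega
  have hcl := closure hR1 hR2 l (l + 4 - d) h0 hh0 hQ2
  have hh0l : h0 (l + 1) = z := by
    show g (Equiv.swap i0 (l + 2) (l + 1)) = z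
    rw [Equiv.swap_apply_of_ne_of_ne (by omega) (by omega), hgf _ le_rfl, hg1l]
  have hh0f : ∀ i ≤ l, i ≠ i0 → h0 i = f i := by
    intro i hi hii
    show g (Equiv.swap i0 (l + 2) i) = f i
    rw [Equiv.swap_apply_of_ne_of_ne hii (by omega), hg0 i hi]
  rw [hh0l] at hcl
  set c := P (l + 2) with hc
  set J := (range l).filter (fun j => (1 ≤ j ∧ P (j - 1) = !c ∧ P j = c) ∧ R b z (h0 j)) with hJ
  have hs : Src P c l ⊆ insert i0 (J ∪ Kz) := by
    intro j hj
    rw [Src, Finset.mem_filter, Finset.mem_range] at hj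
    rw [Finset.mem_insert, Finset.mem_union]
    by_cases h1 : j = i0
    · exact Or.inl h1
    · right
      by_cases h2 : R b z (f j)
      · left
        rw [hJ, Finset.mem_filter, Finset.mem_range]
        refine ⟨hj.1, hj.2, ?_⟩
        rw [hh0f j (by omega) h1]
        exact h2
      · right
        rw [hKz, Finset.mem_filter, Finset.mem_range]
        exact ⟨by omega, h2⟩
  have h1 := Finset.card_le_card hs
  have h2 := Finset.card_insert_le i0 (J ∪ Kz)
  have h3 := Finset.card_union_le J Kz
  have h4 := T_Src P c l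
  have hJle : J.card + 2 ≤ 2 * (l + 4 - d) := hcl
  omega

end main

end Pool.Agent.Helper20.Turn
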