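import Mathlib

/-!
# Oriented paths with many turning points

Combinatorial core for `MP_f8e2d3_co`. `R b v w` is the relation `v → w` for `b = true` and
`w → v` for `b = false`; a pattern is a map `P : ℕ → Bool`.
-/

set_option autoImplicit false

namespace Pool.Agent.Helper20.Turn

open Finset Classical

/-- injective on `[0, l]` -/
def Inj {V : Type} (l : ℕ) (f : ℕ → V) : Prop := ∀ i ≤ l, ∀ j ≤ l, f i = f j → i = j

/-- `f` embeds the first `l` arcs of the pattern `P` -/
def Emb {V : Type} (R : Bool → V → V → Prop) (P : ℕ → Bool) (l : ℕ) (f : ℕ → V) : Prop :=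
  Inj l f ∧ ∀ i < l, R (P i) (f i) (f (i + 1))

/-- the vertices of the path -/
noncomputable def im {V : Type} (l : ℕ) (f : ℕ → V) : Finset V := (range (l + 1)).image f

/-- the `b`-neighbours of `v` -/
noncomputable def N {V : Type} [Fintype V] (R : Bool → V → V → Prop) (b : Bool) (v : V) :
    Finset V := univ.filter (fun w => R b v w)

section basic

variable {V : Type} [Fintype V] {R : Bool → V → V → Prop} {P : ℕ → Bool}

theorem mem_N {b : Bool} {v w : V} : w ∈ N R b v ↔ R b v w := by simp [N]

theorem mem_im {l : ℕ} {f : ℕ → V} {x : V} : x ∈ im l f ↔ ∃ i ≤ l, f i = x := by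
  simp only [im, Finset.mem_image, Finset.mem_range, Nat.lt_succ_iff]

theorem card_im {l : ℕ} {f : ℕ → V} (h : Inj l f) : (im l f).card = l + 1 := by
  rw [im, Finset.card_image_of_injOn, Finset.card_range]
  intro i hi j hj hij
  simp only [Finset.coe_range, Set.mem_Iio] at hi hj
  exact h i (by omega) j (by omega) hij

theorem swap_le {j L i : ℕ} (hj : j ≤ L) (hi : i ≤ L) : Equiv.swap j L i ≤ L := by
  rcases eq_or_ne i j with h | h
  · subst h; rw [Equiv.swap_apply_left]
  · rcases eq_or_ne i L with h' | h'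
    · subst h'; rw [Equiv.swap_apply_right]; exact hj
    · rw [Equiv.swap_apply_of_ne_of_ne h h']; exact hi

theorem swap_inj {L j : ℕ} {g : ℕ → V} (h : Inj L g) (hj : j ≤ L) :
    Inj L (fun i => g (Equiv.swap j L i)) := by
  intro a ha b hb hab
  exact (Equiv.swap j L).injective (h _ (swap_le hj ha) _ (swap_le hj hb) hab)

theorem swap_im {L j : ℕ} {g : ℕ → V} (hj : j ≤ L) :
    im L (fun i => g (Equiv.swap j L i)) = im L g := by
  ext x
  rw [mem_im, mem_im]
  constructor
  · rintro ⟨i, hi, rfl⟩
    exact ⟨_, swap_le hj hi, rfl⟩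
  · rintro ⟨i, hi, rfl⟩
    exact ⟨Equiv.swap j L i, swap_le hj hi, by simp⟩

/-- exchange the vertex at the inner position `j` with the last vertex -/
theorem swap_emb (hR : ∀ b x y, R b x y → R (!b) y x) {l j : ℕ} {g : ℕ → V}
    (hi : Inj (l + 2) g) (ha : ∀ i < l + 1, R (P i) (g i) (g (i + 1)))
    (hj1 : 1 ≤ j) (hj2 : j < l) (hP : P (j - 1) = !(P j))
    (h1 : R (P j) (g (l + 2)) (g (j - 1))) (h2 : R (P j) (g (l + 2)) (g (j + 1)))
    (h3 : R (P (l + 1)) (g (l + 1)) (g j)) :
    Emb R P (l + 2) (fun i => g (Equiv.swap j (l + 2) i)) := by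
  refine ⟨swap_inj hi (by omega), fun i hil => ?_⟩
  show R (P i) (g (Equiv.swap j (l + 2) i)) (g (Equiv.swap j (l + 2) (i + 1)))
  rcases eq_or_ne i j with h | h
  · subst h
    rw [Equiv.swap_apply_left, Equiv.swap_apply_of_ne_of_ne (by omega) (by omega)]
    exact h2
  · rw [Equiv.swap_apply_of_ne_of_ne h (by omega)]
    rcases eq_or_ne (i + 1) j with h' | h'
    · rw [h', Equiv.swap_apply_left]
      have e : i = j - 1 := by omega
      rw [e, hP]
      exact hR _ _ _ h1
    · rcases eq_or_ne i (l + 1) with h'' | h''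
      · subst h''
        rw [Equiv.swap_apply_right]
        exact h3
      · rw [Equiv.swap_apply_of_ne_of_ne h' (by omega)]
        exact ha i (by omega)

theorem miss {b : Bool} {x : V} {d : ℕ} (hd : d ≤ (N R b x).card) {A : Finset V}
    (h : (N R b x \ A).card ≤ 1) : (A \ N R b x).card + d ≤ A.card + 1 := by
  have h1 := Finset.card_sdiff_add_card_inter A (N R b x)
  have h2 := Finset.card_sdiff_add_card_inter (N R b x) A
  rw [Finset.inter_comm] at h2
  omega

theorem tour {c : Bool} (hR : ∀ b x y, R b x y → ¬ R b y x) (E : Finset V) :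
    E.card * (E.card + 1) ≤ 2 * ∑ x ∈ E, (E \ N R c x).card := by
  have e1 : ∀ x ∈ E, (E \ N R c x).card = ∑ y ∈ E, if R c x y then 0 else 1 := by
    intro x _
    rw [Finset.card_eq_sum_ones, Finset.sdiff_eq_filter, Finset.sum_filter]
    refine Finset.sum_congr rfl fun y _ => ?_
    by_cases h : R c x y
    · simp [mem_N, h]
    · simp [mem_N, h]
  rw [Finset.sum_congr rfl e1, two_mul]
  have e2 : (∑ x ∈ E, ∑ y ∈ E, if R c x y then 0 else 1)
      = ∑ x ∈ E, ∑ y ∈ E, if R c y x then (0 : ℕ) else 1 := Finset.sum_comm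
  calc E.card * (E.card + 1) = ∑ x ∈ E, ∑ y ∈ E, (1 + if x = y then 1 else 0) := by
        have : ∀ x ∈ E, (∑ y ∈ E, (1 + if x = y then 1 else 0)) = E.card + 1 := by
          intro x hx
          rw [Finset.sum_add_distrib, Finset.sum_ite_eq, if_pos hx]
          simp
        rw [Finset.sum_congr rfl this]
        simp
    _ ≤ ∑ x ∈ E, ∑ y ∈ E, ((if R c x y then 0 else 1) + if R c y x then (0 : ℕ) else 1) := by
        refine Finset.sum_le_sum fun x _ => Finset.sum_le_sum fun y _ => ?_
        by_cases hxy : x = y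
        · subst hxy
          have : ¬ R c x x := fun h => hR _ _ _ h h
          simp [this]
        · by_cases h1 : R c x y
          · simp [h1, hR _ _ _ h1, hxy]
          · simp [h1, hxy]
    _ = _ := by
        simp only [Finset.sum_add_distrib]
        rw [← e2]

end basic

section closure

variable {V : Type} [Fintype V] {R : Bool → V → V → Prop} {P : ℕ → Bool}

/-- If all paths with `l + 2` arcs and a given vertex set end in a vertex which misses at most
`M` vertices of this set, then at most `2 M - 2` turning points of the right kind can be seen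
from the last but one vertex. -/
theorem closure (hR1 : ∀ b x y, R b x y → R (!b) y x) (hR2 : ∀ b x y, R b x y → ¬ R b y x)
    (l M : ℕ) (h0 : ℕ → V) (h0E : Emb R P (l + 2) h0)
    (hM : ∀ h, Emb R P (l + 2) h → im (l + 2) h = im (l + 2) h0 →
      (im (l + 2) h0 \ N R (P (l + 2)) (h (l + 2))).card ≤ M) :
    ((range l).filter (fun j => (1 ≤ j ∧ P (j - 1) = !(P (l + 2)) ∧ P j = P (l + 2)) ∧
      R (P (l + 1)) (h0 (l + 1)) (h0 j))).card + 2 ≤ 2 * M := by
  set c := P (l + 2) with hc
  set A := im (l + 2) h0 with hA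
  set J := (range l).filter (fun j => (1 ≤ j ∧ P (j - 1) = !c ∧ P j = c) ∧
      R (P (l + 1)) (h0 (l + 1)) (h0 j)) with hJ
  have memJ : ∀ j, j ∈ J ↔ j < l ∧ (1 ≤ j ∧ P (j - 1) = !c ∧ P j = c) ∧
      R (P (l + 1)) (h0 (l + 1)) (h0 j) := by
    intro j; rw [hJ, Finset.mem_filter, Finset.mem_range]
  -- good embeddings relative to a set of positions
  let Gd : Finset ℕ → (ℕ → V) → Prop := fun Y h => Emb R P (l + 2) h ∧ im (l + 2) h = A ∧
    h (l + 1) = h0 (l + 1) ∧ ∀ i ≤ l, i ∉ Y → h i = h0 i
  let Good : Finset ℕ → Prop := fun Y => ∀ j ∈ Y, ∃ h, Gd Y h ∧ h (l + 2) = h0 j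
  obtain ⟨Y, hY, hmax⟩ := Finset.exists_max_image (J.powerset.filter Good) Finset.card
    ⟨∅, by rw [Finset.mem_filter]; exact ⟨by simp, fun j hj => absurd hj (by simp)⟩⟩
  rw [Finset.mem_filter, Finset.mem_powerset] at hY
  obtain ⟨hYJ, hYG⟩ := hY
  have nb : ∀ j ∈ J, j - 1 ∉ J ∧ j + 1 ∉ J := by
    intro j hj
    rw [memJ] at hj
    constructor
    · intro h
      rw [memJ] at h
      have h1 := h.2.1.2.2
      rw [hj.2.1.2.1] at h1
      simp at h1
    · intro h
      rw [memJ] at h
      have h1 := h.2.1.2.1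
      rw [Nat.add_sub_cancel, hj.2.1.2.2] at h1
      simp at h1
  -- the remaining positions are invalid for all ends
  have inv : ∀ h, Gd Y h → ∀ j ∈ J \ Y,
      ¬ (R c (h (l + 2)) (h0 (j - 1)) ∧ R c (h (l + 2)) (h0 (j + 1))) := by
    rintro h ⟨hE, hI, hz, hh⟩ j hj ⟨hv1, hv2⟩
    rw [Finset.mem_sdiff] at hj
    obtain ⟨hjJ, hjY⟩ := hj
    have hj' := (memJ j).1 hjJ
    have n1 : h (j - 1) = h0 (j - 1) :=
      hh _ (by omega) (fun hm => (nb j hjJ).1 (hYJ hm))
    have n2 : h (j + 1) = h0 (j + 1) :=
      hh _ (by omega) (fun hm => (nb j hjJ).2 (hYJ hm))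
    have n3 : h j = h0 j := hh _ (by omega) hjY
    have key : Emb R P (l + 2) (fun i => h (Equiv.swap j (l + 2) i)) := by
      refine swap_emb hR1 hE.1 (fun i hi => hE.2 i (by omega)) hj'.2.1.1 hj'.1 ?_ ?_ ?_ ?_
      · rw [hj'.2.1.2.1, hj'.2.1.2.2]
      · rw [hj'.2.1.2.2, n1]; exact hv1
      · rw [hj'.2.1.2.2, n2]; exact hv2
      · rw [hz, n3]; exact hj'.2.2
    have hmem : insert j Y ∈ J.powerset.filter Good := by
      rw [Finset.mem_filter, Finset.mem_powerset]
      refine ⟨Finset.insert_subset hjJ hYJ, ?_⟩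
      intro i hi
      rw [Finset.mem_insert] at hi
      rcases hi with rfl | hi
      · refine ⟨fun i' => h (Equiv.swap i (l + 2) i'), ⟨key, ?_, ?_, ?_⟩, ?_⟩
        · rw [swap_im (by omega), hI]
        · show h (Equiv.swap i (l + 2) (l + 1)) = _
          rw [Equiv.swap_apply_of_ne_of_ne (by omega) (by omega), hz]
        · intro a ha haY
          rw [Finset.mem_insert, not_or] at haY
          show h (Equiv.swap i (l + 2) a) = _
          rw [Equiv.swap_apply_of_ne_of_ne haY.1 (by omega)]
          exact hh a ha haY.2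
        · show h (Equiv.swap i (l + 2) (l + 2)) = _
          rw [Equiv.swap_apply_right, n3]
      · obtain ⟨h', ⟨g1, g2, g3, g4⟩, g5⟩ := hYG i hi
        exact ⟨h', ⟨g1, g2, g3, fun a ha haY =>
          g4 a ha (fun hm => haY (Finset.mem_insert_of_mem hm))⟩, g5⟩
    have h1 := hmax _ hmem
    rw [Finset.card_insert_of_notMem hjY] at h1
    omega
  -- the ends
  set E : Finset V := insert (h0 (l + 2)) (Y.image h0) with hE
  have hlt : ∀ j ∈ Y, j < l := fun j hj => ((memJ j).1 (hYJ hj)).1
  have cardE : E.card = Y.card + 1 := by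
    rw [hE, Finset.card_insert_of_notMem, Finset.card_image_of_injOn]
    · intro a ha b hb hab
      exact h0E.1 a (by have := hlt a ha; omega) b (by have := hlt b hb; omega) hab
    · rw [Finset.mem_image]
      rintro ⟨a, ha, hab⟩
      have h1 := h0E.1 a (by have := hlt a ha; omega) (l + 2) le_rfl hab
      have := hlt a ha
      omega
  have ends : ∀ x ∈ E, ∃ h, Gd Y h ∧ h (l + 2) = x := by
    intro x hx
    rw [hE, Finset.mem_insert, Finset.mem_image] at hx
    rcases hx with rfl | ⟨j, hj, rfl⟩
    · exact ⟨h0, ⟨h0E, rfl, rfl, fun _ _ _ => rfl⟩, rfl⟩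
    · exact hYG j hj
  have EA : E ⊆ A := by
    intro x hx
    obtain ⟨h, ⟨_, g2, _, _⟩, g5⟩ := ends x hx
    rw [← g2, mem_im]
    exact ⟨l + 2, le_rfl, g5⟩
  -- the count for one end
  have one : ∀ x ∈ E, 2 * (E \ N R c x).card + (J \ Y).card ≤ 2 * M := by
    intro x hx
    obtain ⟨h, hG, hx5⟩ := ends x hx
    have hM' := hM h hG.1 hG.2.1
    have hinv := inv h hG
    rw [hx5] at hM' hinv
    set K : Finset ℕ := (range (l + 1)).filter (fun i => i ∉ J ∧ ¬ R c x (h0 i)) with hK
    have c1 : (J \ Y).card ≤ 2 * K.card := by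
      have hs : J \ Y ⊆ K.image (fun i => i + 1) ∪ K.image (fun i => i - 1) := by
        intro j hj
        have hjJ := (Finset.mem_sdiff.1 hj).1
        have hj' := (memJ j).1 hjJ
        have hn := nb j hjJ
        rw [Finset.mem_union, Finset.mem_image, Finset.mem_image]
        by_cases hv : R c x (h0 (j - 1))
        · right
          refine ⟨j + 1, ?_, by omega⟩
          rw [hK, Finset.mem_filter, Finset.mem_range]
          exact ⟨by omega, hn.2, fun hv2 => hinv j hj ⟨hv, hv2⟩⟩
        · left
          refine ⟨j - 1, ?_, by omega⟩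
          rw [hK, Finset.mem_filter, Finset.mem_range]
          exact ⟨by omega, hn.1, hv⟩
      have h1 := (Finset.card_le_card hs).trans (Finset.card_union_le _ _)
      have h2 : (K.image (fun i => i + 1)).card ≤ K.card := Finset.card_image_le
      have h3 : (K.image (fun i => i - 1)).card ≤ K.card := Finset.card_image_le
      omega
    have c2 : (E \ N R c x).card + K.card ≤ (A \ N R c x).card := by
      have hKc : (K.image h0).card = K.card := by
        apply Finset.card_image_of_injOn
        intro a ha b hb hab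
        have ha' := (Finset.mem_filter.1 ha).1
        have hb' := (Finset.mem_filter.1 hb).1
        rw [Finset.mem_range] at ha' hb'
        exact h0E.1 a (by omega) b (by omega) hab
      rw [← hKc, ← Finset.card_union_of_disjoint]
      · apply Finset.card_le_card
        intro y hy
        rw [Finset.mem_union] at hy
        rcases hy with hy | hy
        · rw [Finset.mem_sdiff] at hy ⊢
          exact ⟨EA hy.1, hy.2⟩
        · rw [Finset.mem_image] at hy
          obtain ⟨i, hi, rfl⟩ := hy
          rw [hK, Finset.mem_filter, Finset.mem_range] at hi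
          rw [Finset.mem_sdiff, mem_N]
          exact ⟨by rw [hA, mem_im]; exact ⟨i, by omega, rfl⟩, hi.2.2⟩
      · rw [Finset.disjoint_left]
        intro y hy1 hy2
        rw [Finset.mem_image] at hy2
        obtain ⟨i, hi, rfl⟩ := hy2
        rw [hK, Finset.mem_filter, Finset.mem_range] at hi
        have hyE := (Finset.mem_sdiff.1 hy1).1
        rw [hE, Finset.mem_insert, Finset.mem_image] at hyE
        rcases hyE with hyE | ⟨j, hj, hyE⟩
        · have := h0E.1 i (by omega) (l + 2) le_rfl hyE
          omega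
        · have h1 := h0E.1 j (by have := hlt j hj; omega) i (by omega) hyE
          rw [← h1] at hi
          exact hi.2.1 (hYJ hj)
    omega
  -- summation over the ends
  have hsum := Finset.sum_le_sum one
  rw [Finset.sum_add_distrib, ← Finset.mul_sum, Finset.sum_const, Finset.sum_const, smul_eq_mul,
    smul_eq_mul] at hsum
  have ht := tour (R := R) (c := c) hR2 E
  have hJY : (J \ Y).card + Y.card = J.card := Finset.card_sdiff_add_card_eq_card hYJ
  have hfin : E.card * (E.card + 1 + (J \ Y).card) ≤ E.card * (2 * M) := by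
    calc E.card * (E.card + 1 + (J \ Y).card)
        = E.card * (E.card + 1) + E.card * (J \ Y).card := by ring
      _ ≤ 2 * ∑ x ∈ E, (E \ N R c x).card + E.card * (J \ Y).card := by
          exact Nat.add_le_add_right ht _
      _ ≤ _ := hsum
  have hpos : 0 < E.card := by omega
  have := Nat.le_of_mul_le_mul_left hfin hpos
  omega

end closure

end Pool.Agent.Helper20.Turn
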